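import Mathlib

set_option autoImplicit false

namespace Pool.Agent.Results.MP_420652_co.Sqrt

def Admissible {n : ℕ} (c : Fin n → Fin n → Fin n) : Prop :=
  (∀ p, Function.Surjective (fun q => c p q)) ∧ (∀ q, Function.Surjective (fun p => c p q)) ∧
    Function.Surjective (fun i => c i i)

def Attacks {n : ℕ} (c : Fin n → Fin n → Fin n) (D : Finset (Fin n)) : Prop :=
  ∀ p q, p ≠ q → ∃ i ∈ D, p = i ∨ q = i ∨ c p q = c i i

theorem result : ∀ (n : ℕ) (c : Fin n → Fin n → Fin n), Admissible c →
    ∃ D : Finset (Fin n), Attacks c D ∧ n ≤ 3 * (n - D.card) ^ 2 := by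
  intro n c ⟨hr, hc, hd⟩
  classical
  let row := fun p => Equiv.ofBijective _ (Finite.surjective_iff_bijective.1 (hr p))
  let col := fun q => Equiv.ofBijective _ (Finite.surjective_iff_bijective.1 (hc q))
  let d := Equiv.ofBijective _ (Finite.surjective_iff_bijective.1 hd)
  let Free : Finset (Fin n) → Prop := fun S =>
    ∀ p ∈ S, ∀ q ∈ S, ∀ r ∈ S, p ≠ q → c p q ≠ c r r
  obtain ⟨S, hS, hmax⟩ := Finset.exists_max_image (Finset.univ.filter Free) Finset.card
    ⟨∅, by simp [Free]⟩
  have hF : Free S := (Finset.mem_filter.1 hS).2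
  refine ⟨Sᶜ, ?_, ?_⟩
  · intro p q hpq
    by_cases hp : p ∈ S
    · by_cases hq : q ∈ S
      · obtain ⟨i, hi⟩ := hd (c p q)
        exact ⟨i, Finset.mem_compl.2 (fun h => hF p hp q hq i h hpq hi.symm),
          Or.inr (Or.inr hi.symm)⟩
      · exact ⟨q, Finset.mem_compl.2 hq, Or.inr (Or.inl rfl)⟩
    · exact ⟨p, Finset.mem_compl.2 hp, Or.inl rfl⟩
  · have hk : n - Sᶜ.card = S.card := by
      have h1 := Finset.card_le_univ S
      rw [Finset.card_compl, Fintype.card_fin] at *
      omega
    rw [hk]
    have hsub : (Finset.univ : Finset (Fin n)) ⊆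
        ((S ×ˢ S).image (fun t => d.symm (c t.1 t.2)) ∪
          (S ×ˢ S).image (fun t => (col t.1).symm (c t.2 t.2))) ∪
          (S ×ˢ S).image (fun t => (row t.1).symm (c t.2 t.2)) := by
      intro x _
      simp only [Finset.mem_union, Finset.mem_image, Finset.mem_product, Prod.exists,
        Equiv.symm_apply_eq]
      by_cases hx : x ∈ S
      · exact Or.inl (Or.inl ⟨x, x, ⟨hx, hx⟩, rfl⟩)
      have hnf : ¬ Free (insert x S) := by
        intro h
        have := hmax _ (Finset.mem_filter.2 ⟨Finset.mem_univ _, h⟩)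
        rw [Finset.card_insert_of_notMem hx] at this
        omega
      simp only [Free, not_forall, not_not, ne_eq] at hnf
      obtain ⟨p, hp, q, hq, r, hr', hpq, he⟩ := hnf
      rcases Finset.mem_insert.1 hp with rfl | hp2
      · rcases Finset.mem_insert.1 hq with rfl | hq2
        · exact absurd rfl hpq
        rcases Finset.mem_insert.1 hr' with rfl | hr'
        · exact absurd ((row r).injective he).symm hpq
        · exact Or.inl (Or.inr ⟨q, r, ⟨hq2, hr'⟩, he.symm⟩)
      · rcases Finset.mem_insert.1 hq with rfl | hq2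
        · rcases Finset.mem_insert.1 hr' with rfl | hr'
          · exact absurd ((col r).injective he) hpq
          · exact Or.inr ⟨p, r, ⟨hp2, hr'⟩, he.symm⟩
        · rcases Finset.mem_insert.1 hr' with rfl | hr'
          · exact Or.inl (Or.inl ⟨p, q, ⟨hp2, hq2⟩, he⟩)
          · exact absurd he (hF p hp2 q hq2 r hr' hpq)
    have h1 := Finset.card_le_card hsub
    rw [Finset.card_univ, Fintype.card_fin] at h1
    have h2 := Finset.card_union_le
      ((S ×ˢ S).image (fun t => d.symm (c t.1 t.2)) ∪
        (S ×ˢ S).image (fun t => (col t.1).symm (c t.2 t.2)))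
      ((S ×ˢ S).image (fun t => (row t.1).symm (c t.2 t.2)))
    have h3 := Finset.card_union_le ((S ×ˢ S).image (fun t => d.symm (c t.1 t.2)))
      ((S ×ˢ S).image (fun t => (col t.1).symm (c t.2 t.2)))
    have h4 := Finset.card_image_le (s := S ×ˢ S) (f := fun t => d.symm (c t.1 t.2))
    have h5 := Finset.card_image_le (s := S ×ˢ S) (f := fun t => (col t.1).symm (c t.2 t.2))
    have h6 := Finset.card_image_le (s := S ×ˢ S) (f := fun t => (row t.1).symm (c t.2 t.2))
    rw [Finset.card_product] at h4 h5 h6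
    rw [pow_two]
    omega

end Pool.Agent.Results.MP_420652_co.Sqrt
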